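import Pool.Agent.Helper91.PolyTime.Typed
import Pool.Agent.Helper91.PolyTime.Reduction

/-!
# More polynomial-time functions
-/

open Function
open Pool.Agent.Helper91.PolyTime Pool.Agent.Helper91.Reduction

namespace Pool.Agent.Helper87.NP

noncomputable instance instPEncFin (n : ℕ) : PEnc (Fin n) := finEnc _

variable {α β : Type*} [PEnc α] [PEnc β]

lemma ptf_getD {o : α → Option β} {d : α → β} (ho : PTF o) (hd : PTF d) :
    PTF (fun a => (o a).getD (d a)) := by
  refine (PTF.optCase (s := fun _ b => b) ho hd PTF.id.snd).of_eq fun a => ?_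
  cases o a <;> rfl

lemma ptf_replicate {m : α → ℕ} {b : α → β} (hm : PTF m) (hb : PTF b) :
    PTF (fun a => List.replicate (m a) (b a)) := by
  refine (PTF.map (f := fun a (_ : ℕ) => b a) (PTF.range hm) (hb.comp PTF.id.fst)).of_eq fun a => ?_
  simp

lemma div_eq (m c : ℕ) (hc : 0 < c) :
    ((List.range m).filter fun i => decide (c * (i + 1) ≤ m)).length = m / c := by
  have h1 : ((List.range m).filter fun i => decide (c * (i + 1) ≤ m)).Nodup :=
    List.nodup_range.filter _
  rw [← List.toFinset_card_of_nodup h1]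
  have h2 : ((List.range m).filter fun i => decide (c * (i + 1) ≤ m)).toFinset =
      Finset.range (m / c) := by
    ext i
    simp only [List.mem_toFinset, List.mem_filter, List.mem_range, decide_eq_true_eq,
      Finset.mem_range]
    rw [← Nat.succ_le_iff (m := i) (n := m / c), Nat.le_div_iff_mul_le hc, mul_comm]
    constructor
    · exact fun h => h.2
    · intro h
      refine ⟨?_, h⟩
      have : i.succ ≤ i.succ * c := Nat.le_mul_of_pos_right _ hc
      omega
  rw [h2, Finset.card_range]

lemma ptf_div {m : α → ℕ} (hm : PTF m) (c : ℕ) (hc : 0 < c) : PTF (fun a => m a / c) := by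
  refine (PTF.length (PTF.filter (f := fun a i => decide (c * (i + 1) ≤ m a)) (PTF.range hm)
    (PTF.le (PTF.mul (PTF.const c) (PTF.succ PTF.id.snd)) (hm.comp PTF.id.fst)))).of_eq fun a => ?_
  exact div_eq (m a) c hc

lemma ptf_mod {m : α → ℕ} (hm : PTF m) (c : ℕ) (hc : 0 < c) : PTF (fun a => m a % c) := by
  refine (PTF.sub hm (PTF.mul (PTF.const c) (ptf_div hm c hc))).of_eq fun a => ?_
  have := Nat.div_add_mod (m a) c
  omega

end Pool.Agent.Helper87.NP
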