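import Mathlib

/-!
# Languages, NP, coNP and polynomial-time many-one reductions

All notions are based on Mathlib's `Turing.TM2ComputableInPolyTime`.
-/

open Turing Computability

namespace Pool.Agent.Helper87.NP

/-- The function `f` on strings is computable in polynomial time by a Turing machine. -/
def PolyTimeFun (f : List Bool → List Bool) : Prop :=
  Nonempty (TM2ComputableInPolyTime (id : List Bool → List Bool) (id : List Bool → List Bool) f)

/-- The Boolean function `R` of two strings is computable in polynomial time by a Turing machine. -/
def PolyTimeRel (R : List Bool × List Bool → Bool) : Prop :=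
  Nonempty (TM2ComputableInPolyTime
    (encodingProd (encodingList Bool) (encodingList Bool)).encode encodeBool R)

/-- The class NP: `x ∈ L` if and only if there is a certificate `y` of length polynomial in the
length of `x` that is accepted by a fixed polynomial-time verifier. -/
def InNP (L : Set (List Bool)) : Prop :=
  ∃ (p : Polynomial ℕ) (R : List Bool × List Bool → Bool), PolyTimeRel R ∧
    ∀ x, x ∈ L ↔ ∃ y : List Bool, y.length ≤ p.eval x.length ∧ R (x, y) = true

/-- The class co-NP. -/
def InCoNP (L : Set (List Bool)) : Prop := InNP Lᶜ

/-- Polynomial-time many-one reducibility. -/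
def Reduces (A B : Set (List Bool)) : Prop :=
  ∃ f : List Bool → List Bool, PolyTimeFun f ∧ ∀ x, x ∈ A ↔ f x ∈ B

/-- Completeness for co-NP under polynomial-time many-one reductions. -/
def IsCoNPComplete (A : Set (List Bool)) : Prop := InCoNP A ∧ ∀ L, InCoNP L → Reduces L A

/-- Completeness for NP under polynomial-time many-one reductions. -/
def IsNPComplete (A : Set (List Bool)) : Prop := InNP A ∧ ∀ L, InNP L → Reduces L A

end Pool.Agent.Helper87.NP
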