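import Pool.Agent.Helper91.PolyTime.Reduction
import Pool.Agent.Helper91.PolyTime.Verifier
import Pool.Agent.Helper87.NP.Defs

/-!
# Cook's theorem for formulas in conjunctive normal form
-/

open Turing Function Computability
open Pool.Agent.Helper91.PolyTime Pool.Agent.Helper91.CookLevin Pool.Agent.Helper91.Triangle
open Pool.Agent.Helper91.Reduction Pool.Agent.Helper91.Verifier

namespace Pool.Agent.Helper87.NP

/-- Formulas in conjunctive normal form: lists of clauses, which are lists of literals. -/
abbrev Cnf (ν : Type*) : Type _ := List (List (ν × Bool))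

/-- Satisfiability. -/
def Cnf.Sat {ν : Type*} (φ : Cnf ν) : Prop := ∃ τ : ν → Bool, ∀ C ∈ φ, ∃ l ∈ C, τ l.1 = l.2

section

variable (M : TM2ComputableAux (Bool ⊕ Bool) Bool)

/-- all values -/
noncomputable def allD : List (D M.tm) :=
  haveI : Fintype (D M.tm) := Fintype.ofFinite _
  Finset.univ.toList

lemma mem_allD (d : D M.tm) : d ∈ allD M := by
  unfold allD; simp

/-- the formula of an input -/
noncomputable def cnf (P N : ℕ) (x : List Bool) : Cnf (Var × D M.tm) :=
  ((grid (N + 1)).map fun v => (allD M).map fun d => ((v, d), true)) ++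
  (cons P N x).flatMap fun c => (viol M c.1).map fun d => (conPat c d).map fun p => (p, false)

lemma cons_vars {P N : ℕ} {x : List Bool} {c : Con CType Var} (hc : c ∈ cons P N x) :
    c.2.1 ∈ grid (N + 1) ∧ c.2.2.1 ∈ grid (N + 1) ∧ c.2.2.2.1 ∈ grid (N + 1) ∧
      c.2.2.2.2.1 ∈ grid (N + 1) ∧ c.2.2.2.2.2 ∈ grid (N + 1) := by
  simp only [cons, List.mem_append, List.mem_map, List.mem_filter, List.mem_range,
    decide_eq_true_eq, List.mem_cons, List.not_mem_nil, or_false] at hc
  simp only [mem_grid]
  rcases hc with ⟨v, hv, rfl⟩ | ⟨i, hi, rfl⟩ | ⟨i, ⟨hi, hi'⟩, rfl⟩ | rfl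
  · rw [mem_grid] at hv
    simp only
    omega
  · simp only; omega
  · simp only; omega
  · simp only; omega

theorem cnf_iff (P N : ℕ) (x : List Bool) :
    (cnf M P N x).Sat ↔ ∃ α : Var → D M.tm, Sat M x P N α := by
  classical
  constructor
  · rintro ⟨τ, hτ⟩
    have h1 : ∀ v ∈ grid (N + 1), ∃ d, τ (v, d) = true := by
      intro v hv
      obtain ⟨l, hl, h⟩ := hτ ((allD M).map fun d => ((v, d), true)) (by
        simp only [cnf, List.mem_append, List.mem_map]
        exact Or.inl ⟨v, hv, rfl⟩)
      simp only [List.mem_map] at hl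
      obtain ⟨d, -, rfl⟩ := hl
      exact ⟨d, h⟩
    let α : Var → D M.tm := fun v => if h : ∃ d, τ (v, d) = true then h.choose else
      Classical.arbitrary _
    have hα : ∀ v ∈ grid (N + 1), τ (v, α v) = true := by
      intro v hv
      simp only [α]
      rw [dif_pos (h1 v hv)]
      exact (h1 v hv).choose_spec
    refine ⟨α, ?_⟩
    rw [sat_iff_cons]
    intro c hc
    by_contra hno
    obtain ⟨l, hl, h⟩ := hτ ((conPat c (vals α c)).map fun p => (p, false)) (by
      simp only [cnf, List.mem_append, List.mem_flatMap, List.mem_map]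
      exact Or.inr ⟨c, hc, vals α c, (mem_viol M _ _).2 hno, rfl⟩)
    simp only [List.mem_map] at hl
    obtain ⟨p, hp, rfl⟩ := hl
    simp only at h
    obtain ⟨g1, g2, g3, g4, g5⟩ := cons_vars hc
    simp only [conPat, vals, List.mem_cons, List.not_mem_nil, or_false] at hp
    rcases hp with rfl | rfl | rfl | rfl | rfl
    · rw [hα _ g1] at h; simp at h
    · rw [hα _ g2] at h; simp at h
    · rw [hα _ g3] at h; simp at h
    · rw [hα _ g4] at h; simp at h
    · rw [hα _ g5] at h; simp at h
  · rintro ⟨α, hα⟩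
    rw [sat_iff_cons] at hα
    refine ⟨fun p => decide (α p.1 = p.2), fun C hC => ?_⟩
    simp only [cnf, List.mem_append, List.mem_flatMap, List.mem_map] at hC
    rcases hC with ⟨v, hv, rfl⟩ | ⟨c, hc, d, hd, rfl⟩
    · refine ⟨((v, α v), true), List.mem_map.2 ⟨α v, mem_allD M _, rfl⟩, by simp⟩
    · rw [mem_viol] at hd
      by_contra hno
      push Not at hno
      apply hd
      have h1 := hα c hc
      have h2 : vals α c = d := by
        have h3 : ∀ p ∈ conPat c d, α p.1 = p.2 := by
          intro p hp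
          have := hno (p, false) (List.mem_map.2 ⟨p, hp, rfl⟩)
          simpa using this
        have e1 := h3 (c.2.1, d.1) (by simp [conPat])
        have e2 := h3 (c.2.2.1, d.2.1) (by simp [conPat])
        have e3 := h3 (c.2.2.2.1, d.2.2.1) (by simp [conPat])
        have e4 := h3 (c.2.2.2.2.1, d.2.2.2.1) (by simp [conPat])
        have e5 := h3 (c.2.2.2.2.2, d.2.2.2.2) (by simp [conPat])
        simp only at e1 e2 e3 e4 e5
        simp only [vals, e1, e2, e3, e4, e5]
      rw [h2] at h1
      exact h1

lemma ptf_cnf {α : Type*} [PEnc α] {x : α → List Bool} {P N : α → ℕ} (hx : PTF x) (hP : PTF P)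
    (hN : PTF N) : PTF (fun a => cnf M (P a) (N a) (x a)) := by
  unfold cnf
  refine PTF.append ?_ ?_
  · refine PTF.map (ptf_grid (PTF.succ hN)) (PTF.map (PTF.const _) ?_)
    exact PTF.pair (PTF.pair PTF.id.fst.snd PTF.id.snd) (PTF.const _)
  · refine PTF.flatMap (ptf_cons hx hP hN) (PTF.map ?_ (PTF.map ?_ ?_))
    · exact (PTF.ofFinite (viol M)).comp PTF.id.snd.fst
    · exact ptf_conPat PTF.id.fst.snd PTF.id.snd
    · exact PTF.pair PTF.id.snd (PTF.const _)

end

/-- **Cook's theorem.** Every language in NP reduces to the satisfiability of formulas in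
conjunctive normal form, by a polynomial-time function. -/
theorem exists_cnf {L : Set (List Bool)} (hL : InNP L) :
    ∃ (ν : Type) (_ : PEnc ν) (_ : DecidableEq ν) (f : List Bool → Cnf ν), PTF f ∧
      ∀ x, x ∈ L ↔ (f x).Sat := by
  classical
  obtain ⟨p, R, ⟨H⟩, hR⟩ := hL
  let M := H.toTM2ComputableAux
  let q : Polynomial ℕ := Polynomial.C (bnd H.tm) * H.time.comp (Polynomial.X + p) +
    (Polynomial.X + p)
  let P : List Bool → ℕ := fun x => p.eval x.length
  let N : List Bool → ℕ := fun x => q.eval x.length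
  have hN1 : ∀ x : List Bool, bnd H.tm * H.time.eval (x.length + P x) ≤ N x := by
    intro x
    simp only [N, P, q, Polynomial.eval_add, Polynomial.eval_mul, Polynomial.eval_C,
      Polynomial.eval_comp, Polynomial.eval_X]
    omega
  have hN2 : ∀ x : List Bool, x.length + P x ≤ N x := by
    intro x
    simp only [N, P, q, Polynomial.eval_add, Polynomial.eval_mul, Polynomial.eval_C,
      Polynomial.eval_comp, Polynomial.eval_X]
    omega
  refine ⟨Var × D M.tm, inferInstance, inferInstance, fun x => cnf M (P x) (N x) x, ?_, ?_⟩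
  · exact ptf_cnf M PTF.id (PTF.polyEval p (PTF.length PTF.id))
      (PTF.polyEval q (PTF.length PTF.id))
  · intro x
    rw [cnf_iff, hR x]
    exact sat_iff H x (P x) (N x) (hN1 x) (hN2 x)

end Pool.Agent.Helper87.NP
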